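import Pool.Agent.Helper37.KD.DefsC
import Pool.Agent.Helper37.KD.St.A1
import Pool.Agent.Helper37.KD.St.A2
import Pool.Agent.Helper37.KD.St.A5

/-! KD Part I, piece D1: v-shifts are controlled by the information functional -/

namespace KD.I.D1

open Finset

section V
variable {d N : ℕ} [NeZero N]

theorem le_nsup (x : V d N) (i : Fin d) : (x i).valMinAbs.natAbs ≤ nsup x := by
  unfold nsup
  exact Finset.le_sup (f := fun i => (x i).valMinAbs.natAbs) (Finset.mem_univ i)

theorem nsup_le {x : V d N} {b : ℕ} (h : ∀ i, (x i).valMinAbs.natAbs ≤ b) : nsup x ≤ b := by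
  unfold nsup
  exact Finset.sup_le (fun i _ => h i)

theorem nsup_add_le (x y : V d N) : nsup (x + y) ≤ nsup x + nsup y := by
  refine nsup_le (fun i => ?_)
  have h1 := ZMod.natAbs_valMinAbs_add_le (x i) (y i)
  have h2 := Int.natAbs_add_le (x i).valMinAbs (y i).valMinAbs
  have h3 := le_nsup x i
  have h4 := le_nsup y i
  have : (x + y) i = x i + y i := rfl
  rw [this]
  omega

theorem nsup_neg (x : V d N) : nsup (-x) = nsup x := by
  unfold nsup
  congr 1
  funext i
  exact ZMod.natAbs_valMinAbs_neg (x i)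

theorem nsup_le_n1 (x : V d N) : (nsup x : ℝ) ≤ n1 x := by
  rcases Nat.eq_zero_or_pos (nsup x) with h | h
  · rw [h]
    unfold n1
    push_cast
    exact Finset.sum_nonneg (fun i _ => by positivity)
  · have hne : (Finset.univ : Finset (Fin d)).Nonempty := by
      by_contra hc
      rw [Finset.not_nonempty_iff_eq_empty] at hc
      unfold nsup at h
      rw [hc, Finset.sup_empty] at h
      exact absurd h (lt_irrefl _)
    obtain ⟨i, _, hi⟩ := Finset.exists_mem_eq_sup Finset.univ hne (fun i => (x i).valMinAbs.natAbs)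
    have : nsup x = (x i).valMinAbs.natAbs := hi
    rw [this]
    unfold n1
    exact Finset.single_le_sum (f := fun i => ((x i).valMinAbs.natAbs : ℝ)) (fun i _ => by positivity)
      (Finset.mem_univ i)

/-- natural numbers at most `N / 2` -/
theorem natAbs_cast {n : ℕ} (h : n ≤ N / 2) : ((n : ZMod N)).valMinAbs.natAbs = n := by
  rw [ZMod.valMinAbs_natCast_of_le_half h]
  rfl

/-- size of the shell -/
theorem card_shell (hd : 1 ≤ d) (k : ℕ) (hk : 2 ^ (k + 1) ≤ N / 2) :
    (2 ^ k) ^ d ≤ (Finset.univ.filter (fun l : V d N => 2 ^ k ≤ nsup l ∧ nsup l < 2 ^ (k + 1))).card := by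
  classical
  let i0 : Fin d := ⟨0, hd⟩
  let g : (Fin d → Fin (2 ^ k)) → Fin d → ℕ := fun a i => (a i : ℕ) + (if i = i0 then 2 ^ k else 0)
  have hg : ∀ a i, g a i < 2 ^ (k + 1) := by
    intro a i
    have h1 := (a i).isLt
    have h2 : 2 ^ (k + 1) = 2 ^ k + 2 ^ k := by ring
    simp only [g]
    split_ifs <;> omega
  have hgN : ∀ a i, g a i ≤ N / 2 := fun a i => (hg a i).le.trans hk
  let f : (Fin d → Fin (2 ^ k)) → V d N := fun a i => ((g a i : ℕ) : ZMod N)
  have hf : ∀ a i, (f a i).valMinAbs.natAbs = g a i := fun a i => natAbs_cast (hgN a i)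
  have hinj : Function.Injective f := by
    intro a b hab
    funext i
    have h1 : g a i = g b i := by rw [← hf a i, ← hf b i, hab]
    simp only [g] at h1
    exact Fin.ext (by omega)
  have hcard : (Finset.univ : Finset (Fin d → Fin (2 ^ k))).card = (2 ^ k) ^ d := by
    simp
  rw [← hcard]
  refine Finset.card_le_card_of_injOn f (fun a _ => ?_) (hinj.injOn)
  simp only [Finset.coe_filter, Finset.mem_univ, true_and, Set.mem_setOf_eq]
  constructor
  · refine le_trans ?_ (le_nsup (f a) i0)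
    rw [hf]
    simp [g]
  · have : nsup (f a) ≤ 2 ^ (k + 1) - 1 := by
      refine nsup_le (fun i => ?_)
      rw [hf]
      have := hg a i
      omega
    have h2 : 0 < 2 ^ (k + 1) := by positivity
    omega

/-- peel off a small vector -/
theorem split_vec (w : V d N) (p b : ℕ) (hw : nsup w ≤ (p + 1) * b) :
    ∃ x y : V d N, w = x + y ∧ nsup x ≤ p * b ∧ nsup y ≤ b := by
  let a : Fin d → ℤ := fun i => (w i).valMinAbs
  let c : Fin d → ℤ := fun i => max (-(b : ℤ)) (min (a i) b)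
  have ha : ∀ i, (a i).natAbs ≤ (p + 1) * b := fun i => (le_nsup w i).trans hw
  have hc : ∀ i, (c i).natAbs ≤ b := by
    intro i
    have h1 : -(b : ℤ) ≤ c i := le_max_left _ _
    have h2 : c i ≤ b := max_le (by omega) (min_le_right _ _)
    omega
  have hac : ∀ i, (a i - c i).natAbs ≤ p * b := by
    intro i
    have h1 := ha i
    have h3 : (p + 1) * b = p * b + b := by ring
    rw [h3] at h1
    simp only [c]
    rcases le_total (a i) (b : ℤ) with h | h
    · rw [min_eq_left h]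
      rcases le_total (-(b : ℤ)) (a i) with h' | h'
      · rw [max_eq_right h']; simp
      · rw [max_eq_left h']; omega
    · rw [min_eq_right h, max_eq_right (by omega)]; omega
  have key : ∀ (x : ℤ) (m : ℕ), x.natAbs ≤ m → ((x : ZMod N)).valMinAbs.natAbs ≤ m := by
    intro x m hx
    refine le_trans ?_ hx
    exact ZMod.natAbs_min_of_le_div_two N _ _ (by simp) (ZMod.natAbs_valMinAbs_le _)
  refine ⟨fun i => ((a i - c i : ℤ) : ZMod N), fun i => ((c i : ℤ) : ZMod N), ?_, ?_, ?_⟩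
  · funext i
    have : w i = ((a i : ℤ) : ZMod N) := (ZMod.coe_valMinAbs (w i)).symm
    simp only [Pi.add_apply]
    rw [this]
    push_cast
    ring
  · exact nsup_le (fun i => key _ _ (hac i))
  · exact nsup_le (fun i => key _ _ (hc i))

end V

section S
variable {d N J : ℕ} [NeZero N] {c0 C0 : ℝ} {Θ : Type} [Fintype Θ] (S : JSys d N J c0 C0 Θ)

/-- sums over a shell -/
theorem shell_sum (g : V d N → ℝ) (hg : ∀ l, 0 ≤ g l) {j : ℕ} (hj : j ≤ J) (hc0 : 0 < c0) :
    ∑ l ∈ Finset.univ.filter (fun l : V d N => 2 ^ j ≤ nsup l ∧ nsup l < 2 ^ (j + 1)), g l ≤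
      2 ^ (d * j) / c0 * ∑ θ, S.m θ * g (S.pi j θ) := by
  classical
  have h1 : ∑ l ∈ Finset.univ.filter (fun l : V d N => 2 ^ j ≤ nsup l ∧ nsup l < 2 ^ (j + 1)),
      c0 / 2 ^ (d * j) * g l ≤ ∑ θ, S.m θ * g (S.pi j θ) := by
    calc _ ≤ ∑ l ∈ Finset.univ.filter (fun l : V d N => 2 ^ j ≤ nsup l ∧ nsup l < 2 ^ (j + 1)),
          (∑ θ, if S.pi j θ = l then S.m θ else 0) * g l := by
          refine Finset.sum_le_sum (fun l hl => mul_le_mul_of_nonneg_right ?_ (hg l))
          have hl' := (Finset.mem_filter.1 hl).2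
          exact S.cover j hj l hl'.1 hl'.2
      _ ≤ ∑ l, (∑ θ, if S.pi j θ = l then S.m θ else 0) * g l := by
          refine Finset.sum_le_sum_of_subset_of_nonneg (Finset.filter_subset _ _) (fun l _ _ => ?_)
          refine mul_nonneg (Finset.sum_nonneg (fun θ _ => ?_)) (hg l)
          split_ifs
          · exact S.m_nn θ
          · exact le_rfl
      _ = ∑ θ, S.m θ * g (S.pi j θ) := by
          simp_rw [Finset.sum_mul]
          rw [Finset.sum_comm]
          refine Finset.sum_congr rfl (fun θ _ => ?_)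
          simp [ite_mul]
  rw [← Finset.mul_sum] at h1
  have h2 : (0 : ℝ) < 2 ^ (d * j) := by positivity
  have h3 : 0 < c0 / 2 ^ (d * j) := by positivity
  calc _ = 2 ^ (d * j) / c0 * (c0 / 2 ^ (d * j) *
      ∑ l ∈ Finset.univ.filter (fun l : V d N => 2 ^ j ≤ nsup l ∧ nsup l < 2 ^ (j + 1)), g l) := by
        field_simp
    _ ≤ _ := mul_le_mul_of_nonneg_left h1 (by positivity)

theorem he_le_info (u : GG d N → ℝ) (hu : ∀ z, 0 < u z) (w : GG d N) :
    4 * he u w ≤ ∑ z, (u (z + w) - u z) * (Real.log (u (z + w)) - Real.log (u z)) := by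
  unfold he
  rw [Finset.mul_sum]
  exact Finset.sum_le_sum (fun z _ => E3 (u z) (u (z + w)) (hu _) (hu _))

theorem he_nonneg (u : GG d N → ℝ) (w : GG d N) : 0 ≤ he u w :=
  Finset.sum_nonneg (fun z _ => sq_nonneg _)

/-- one shell is bounded by the information functional -/
theorem shell_le_If (s : ℝ) (u : GG d N → ℝ) (hu : ∀ z, 0 < u z) {j : ℕ} (hj : j ≤ J) :
    4 * ∑ θ, S.m θ * he u (vs (S.pi j θ)) ≤ tim s j * S.If s u := by
  have hw : ∀ j θ, 0 ≤ S.wt s j θ := fun j θ => div_nonneg (S.m_nn θ) (tim_pos s j).le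
  have h1 : ∑ θ, S.wt s j θ * ∑ z, (u (z + S.jv j θ) - u z) *
      (Real.log (u (z + S.jv j θ)) - Real.log (u z)) ≤ S.If s u := by
    unfold JSys.If
    refine Finset.single_le_sum (f := fun j => ∑ θ, S.wt s j θ * ∑ z, (u (z + S.jv j θ) - u z) *
      (Real.log (u (z + S.jv j θ)) - Real.log (u z))) (fun i _ => ?_) (Finset.mem_range.2 (by omega))
    refine Finset.sum_nonneg (fun θ _ => mul_nonneg (hw i θ) ?_)
    have := he_le_info u hu (S.jv i θ)
    have := he_nonneg u (S.jv i θ)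
    linarith
  have ht := tim_pos s j
  calc 4 * ∑ θ, S.m θ * he u (vs (S.pi j θ))
      = tim s j * ∑ θ, S.wt s j θ * (4 * he u (S.jv j θ)) := by
        rw [Finset.mul_sum, Finset.mul_sum]
        refine Finset.sum_congr rfl (fun θ _ => ?_)
        unfold JSys.wt JSys.jv
        field_simp
    _ ≤ tim s j * ∑ θ, S.wt s j θ * ∑ z, (u (z + S.jv j θ) - u z) *
          (Real.log (u (z + S.jv j θ)) - Real.log (u z)) := by
        refine mul_le_mul_of_nonneg_left (Finset.sum_le_sum (fun θ _ => ?_)) ht.le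
        exact mul_le_mul_of_nonneg_left (he_le_info u hu _) (hw j θ)
    _ ≤ _ := mul_le_mul_of_nonneg_left h1 ht.le

theorem If_nonneg (s : ℝ) (u : GG d N → ℝ) (hu : ∀ z, 0 < u z) : 0 ≤ S.If s u := by
  have h := shell_le_If S s u hu (Nat.zero_le J)
  rw [tim_zero, one_mul] at h
  refine le_trans ?_ h
  refine mul_nonneg (by norm_num) (Finset.sum_nonneg (fun θ _ => mul_nonneg (S.m_nn θ) (he_nonneg _ _)))

theorem shell_he (s : ℝ) (u : GG d N → ℝ) (hu : ∀ z, 0 < u z) {j : ℕ} (hj : j ≤ J) (hc0 : 0 < c0) :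
    ∑ l ∈ Finset.univ.filter (fun l : V d N => 2 ^ j ≤ nsup l ∧ nsup l < 2 ^ (j + 1)), he u (vs l) ≤
      2 ^ (d * j) / c0 * (tim s j * S.If s u / 4) := by
  refine (shell_sum S (fun l => he u (vs l)) (fun l => he_nonneg _ _) hj hc0).trans ?_
  refine mul_le_mul_of_nonneg_left ?_ (by positivity)
  have := shell_le_If S s u hu hj
  linarith

theorem vs_add (x y : V d N) : (vs (x + y) : GG d N) = vs x + vs y := by
  simp [vs]

theorem vs_neg (x : V d N) : (vs (-x) : GG d N) = -vs x := by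
  simp [vs]

/-- small shifts -/
theorem he_small (s : ℝ) (hs : 0 < s) (hs1 : s < 1) (hd : 1 ≤ d) (hc0 : 0 < c0)
    (u : GG d N → ℝ) (hu : ∀ z, 0 < u z) {k : ℕ} (hk : k + 2 ≤ J) (hkN : 2 ^ (k + 2) ≤ N / 2)
    (w : V d N) (hw : nsup w ≤ 2 ^ k) :
    he u (vs w) ≤ 32 * 2 ^ d / c0 * tim s k * S.If s u := by
  classical
  set sh : ℕ → Finset (V d N) := fun j =>
    Finset.univ.filter (fun l : V d N => 2 ^ j ≤ nsup l ∧ nsup l < 2 ^ (j + 1)) with hsh
  have hI := If_nonneg S s u hu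
  -- pointwise
  have hpt : ∀ l : V d N, he u (vs w) ≤ 2 * he u (vs l) + 2 * he u (vs (l - w)) := by
    intro l
    have h1 := he_add_le u (vs l) (vs (w - l))
    have h2 : (vs l + vs (w - l) : GG d N) = vs w := by rw [← vs_add]; congr 1; abel
    have h3 : he u (vs (w - l)) = he u (vs (l - w)) := by
      rw [← he_neg u (vs (l - w)), ← vs_neg]; congr 2; abel
    rw [h2, h3] at h1
    have h4 := Real.sq_sqrt (he_nonneg u (vs w))
    have h5 := Real.sq_sqrt (he_nonneg u (vs l))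
    have h6 := Real.sq_sqrt (he_nonneg u (vs (l - w)))
    have h7 := Real.sqrt_nonneg (he u (vs w))
    nlinarith [sq_nonneg (√(he u (vs l)) - √(he u (vs (l - w))))]
  -- the bound for one shell
  set A : ℝ := 2 ^ (d * (k + 2)) / c0 * (16 * tim s k * S.If s u / 4) with hA
  have htk := tim_pos s k
  have htim : ∀ j, j ≤ k + 2 → tim s j ≤ 16 * tim s k := by
    intro j hj
    have h1 : tim s j ≤ tim s (k + 2) := tim_le_tim hs hj
    rw [tim_add] at h1
    have h2 : tim s 2 ≤ 16 := by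
      unfold tim
      have : (2 : ℝ) ^ (2 * s * ((2 : ℕ) : ℝ)) ≤ 2 ^ (4 : ℝ) :=
        Real.rpow_le_rpow_of_exponent_le one_le_two (by push_cast; linarith)
      have h3 : (2 : ℝ) ^ (4 : ℝ) = 16 := by norm_num
      linarith
    nlinarith
  have hshA : ∀ j, j ≤ k + 2 → ∑ l ∈ sh j, he u (vs l) ≤ A := by
    intro j hj
    refine (shell_he S s u hu (by omega) hc0).trans ?_
    rw [hA]
    refine mul_le_mul ?_ ?_ ?_ (by positivity)
    · refine div_le_div_of_nonneg_right ?_ hc0.le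
      exact pow_le_pow_right₀ one_le_two (Nat.mul_le_mul_left d hj)
    · refine div_le_div_of_nonneg_right ?_ (by norm_num)
      exact mul_le_mul_of_nonneg_right (htim j hj) hI
    · have := tim_pos s j
      positivity
  -- shifted shell
  have hmap : ∑ l ∈ sh (k + 1), he u (vs (l - w)) ≤ ∑ l ∈ (sh k ∪ sh (k + 1)) ∪ sh (k + 2), he u (vs l) := by
    have h1 : ∑ l ∈ sh (k + 1), he u (vs (l - w)) =
        ∑ l ∈ (sh (k + 1)).image (fun l => l - w), he u (vs l) := by
      rw [Finset.sum_image]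
      intro a _ b _ hab
      simpa using hab
    rw [h1]
    refine Finset.sum_le_sum_of_subset_of_nonneg ?_ (fun l _ _ => he_nonneg _ _)
    intro l' hl'
    obtain ⟨l, hl, rfl⟩ := Finset.mem_image.1 hl'
    have hl2 := (Finset.mem_filter.1 hl).2
    have h2 : nsup (l - w) ≤ nsup l + nsup w := by
      rw [sub_eq_add_neg]
      refine (nsup_add_le _ _).trans ?_
      rw [nsup_neg]
    have h3 : nsup l ≤ nsup (l - w) + nsup w := by
      have := nsup_add_le (l - w) w
      rwa [sub_add_cancel] at this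
    have e1 : 2 ^ (k + 1) = 2 ^ k + 2 ^ k := by ring
    have e2 : 2 ^ (k + 1 + 1) = 4 * 2 ^ k := by ring
    have e3 : 2 ^ (k + 2) = 4 * 2 ^ k := by ring
    have e4 : 2 ^ (k + 2 + 1) = 8 * 2 ^ k := by ring
    simp only [hsh, Finset.mem_union, Finset.mem_filter, Finset.mem_univ, true_and]
    omega
  have hsum3 : ∑ l ∈ (sh k ∪ sh (k + 1)) ∪ sh (k + 2), he u (vs l) ≤ 3 * A := by
    have h1 : ∀ (s t : Finset (V d N)), ∑ l ∈ s ∪ t, he u (vs l) ≤ ∑ l ∈ s, he u (vs l) + ∑ l ∈ t, he u (vs l) := by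
      intro s t
      rw [← Finset.sum_union_inter]
      have : 0 ≤ ∑ l ∈ s ∩ t, he u (vs l) := Finset.sum_nonneg (fun l _ => he_nonneg _ _)
      linarith
    have h2 := h1 (sh k ∪ sh (k + 1)) (sh (k + 2))
    have h3 := h1 (sh k) (sh (k + 1))
    have h4 := hshA k (by omega)
    have h5 := hshA (k + 1) (by omega)
    have h6 := hshA (k + 2) le_rfl
    linarith
  -- average
  have hcard : ((2 : ℝ) ^ (k + 1)) ^ d ≤ ((sh (k + 1)).card : ℝ) := by
    have := card_shell (d := d) (N := N) hd (k + 1) hkN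
    exact_mod_cast this
  have htot : ((sh (k + 1)).card : ℝ) * he u (vs w) ≤ 8 * A := by
    calc ((sh (k + 1)).card : ℝ) * he u (vs w) = ∑ l ∈ sh (k + 1), he u (vs w) := by
          rw [Finset.sum_const, nsmul_eq_mul]
      _ ≤ ∑ l ∈ sh (k + 1), (2 * he u (vs l) + 2 * he u (vs (l - w))) :=
          Finset.sum_le_sum (fun l _ => hpt l)
      _ = 2 * ∑ l ∈ sh (k + 1), he u (vs l) + 2 * ∑ l ∈ sh (k + 1), he u (vs (l - w)) := by
          rw [Finset.sum_add_distrib, Finset.mul_sum, Finset.mul_sum]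
      _ ≤ 8 * A := by
          have := hshA (k + 1) (by omega)
          linarith
  have h8 : ((2 : ℝ) ^ (k + 1)) ^ d * he u (vs w) ≤ 8 * A :=
    (mul_le_mul_of_nonneg_right hcard (he_nonneg _ _)).trans htot
  have hp : (0 : ℝ) < (2 ^ (k + 1)) ^ d := by positivity
  have e5 : (2 : ℝ) ^ (d * (k + 2)) = (2 ^ (k + 1)) ^ d * 2 ^ d := by
    rw [← pow_mul, ← pow_add]; congr 1; ring
  have h9 : (2 ^ (k + 1) : ℝ) ^ d * he u (vs w) ≤
      (2 ^ (k + 1) : ℝ) ^ d * (32 * 2 ^ d / c0 * tim s k * S.If s u) := by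
    refine h8.trans (le_of_eq ?_)
    rw [hA, e5]
    ring
  exact le_of_mul_le_mul_left h9 hp

/-- general shifts, counted in small steps -/
theorem he_general (s : ℝ) (hs : 0 < s) (hs1 : s < 1) (hd : 1 ≤ d) (hc0 : 0 < c0)
    (u : GG d N → ℝ) (hu : ∀ z, 0 < u z) {k : ℕ} (hk : k + 2 ≤ J) (hkN : 2 ^ (k + 2) ≤ N / 2)
    (p : ℕ) : ∀ w : V d N, nsup w ≤ p * 2 ^ k →
    √(he u (vs w)) ≤ p * √(32 * 2 ^ d / c0 * tim s k * S.If s u) := by
  induction p with
  | zero =>
      intro w hw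
      have h0 : w = 0 := by
        funext i
        have h1 := le_nsup w i
        have h2 : (w i).valMinAbs.natAbs = 0 := by omega
        have h3 : (w i).valMinAbs = 0 := Int.natAbs_eq_zero.1 h2
        exact (ZMod.valMinAbs_eq_zero _).1 h3
      have h1 : he u (vs w) = 0 := by
        rw [h0]
        unfold he
        refine Finset.sum_eq_zero (fun z _ => ?_)
        have : z + (vs 0 : GG d N) = z := by
          simp [vs]
        rw [this]; simp
      rw [h1]; simp
  | succ p ih =>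
      intro w hw
      obtain ⟨x, y, hxy, hx, hy⟩ := split_vec w p (2 ^ k) hw
      have h1 := ih x hx
      have h2 := Real.sqrt_le_sqrt (he_small S s hs hs1 hd hc0 u hu hk hkN y hy)
      have h3 := he_add_le u (vs x) (vs y)
      rw [← vs_add, ← hxy] at h3
      push_cast
      linarith

end S

/-- I.3: v-shifts are controlled by the information functional (uses shells k, k+1, k+2 ≤ K+3) -/
theorem he_vs_le (s c0 C0 C1 : ℝ) (d : ℕ) (hd : 1 ≤ d) (hs : 0 < s) (hs1 : s < 1) (hc0 : 0 < c0) :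
    ∃ C : ℝ, 0 < C ∧
    ∀ (E : Env d s c0 C0 C1) (u : E.G → ℝ), (∀ z, 0 < u z) → ∀ k ≤ E.K + 1, ∀ w : V d E.N,
      he u (vs w) ≤ C * (1 + n1 w / 2 ^ k) ^ 2 * tim s k * E.S.If s u := by
  refine ⟨32 * 2 ^ d / c0, by positivity, fun E u hu k hk w => ?_⟩
  have hkN : 2 ^ (k + 2) ≤ E.N / 2 := by
    have h1 := E.hN
    have h2 : 2 ^ (k + 2) * 2 ≤ 2 ^ (E.K + 8) := by
      rw [← pow_succ]
      exact Nat.pow_le_pow_right (by norm_num) (by omega)
    rw [Nat.le_div_iff_mul_le (by norm_num)]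
    omega
  set p : ℕ := nsup w / 2 ^ k + 1 with hp
  have hpos : 0 < 2 ^ k := by positivity
  have hwp : nsup w ≤ p * 2 ^ k := by
    rw [hp]
    have := Nat.lt_div_mul_add (a := nsup w) hpos
    nlinarith
  have h1 := he_general E.S s hs hs1 hd hc0 u hu (k := k) (by omega) hkN p w hwp
  set B : ℝ := 32 * 2 ^ d / c0 * tim s k * E.S.If s u with hB
  have hB0 : 0 ≤ B := by
    have := If_nonneg E.S s u hu
    have := tim_pos s k
    positivity
  have h2 : he u (vs w) ≤ (p : ℝ) ^ 2 * B := by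
    have h3 := Real.sq_sqrt (he_nonneg u (vs w))
    have h4 := Real.sq_sqrt hB0
    have h5 := Real.sqrt_nonneg (he u (vs w))
    calc he u (vs w) = √(he u (vs w)) ^ 2 := h3.symm
      _ ≤ (p * √B) ^ 2 := pow_le_pow_left₀ h5 h1 2
      _ = (p : ℝ) ^ 2 * B := by rw [mul_pow, h4]
  have h6 : (p : ℝ) ≤ 1 + n1 w / 2 ^ k := by
    have h7 : ((nsup w / 2 ^ k : ℕ) : ℝ) ≤ (nsup w : ℝ) / ((2 ^ k : ℕ) : ℝ) := Nat.cast_div_le
    have h8 := nsup_le_n1 w
    have h9 : (nsup w : ℝ) / ((2 ^ k : ℕ) : ℝ) ≤ n1 w / 2 ^ k := by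
      push_cast
      exact div_le_div_of_nonneg_right h8 (by positivity)
    rw [hp]
    push_cast
    linarith
  have h10 : (p : ℝ) ^ 2 ≤ (1 + n1 w / 2 ^ k) ^ 2 := pow_le_pow_left₀ (by positivity) h6 2
  calc he u (vs w) ≤ (p : ℝ) ^ 2 * B := h2
    _ ≤ (1 + n1 w / 2 ^ k) ^ 2 * B := mul_le_mul_of_nonneg_right h10 hB0
    _ = _ := by rw [hB]; ring

end KD.I.D1
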